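import Pool.Agent.Helper11.PP.GoalsE

/-!
# Packet PP-E-DABS (MP_fc6b1e_nt): from finitely many families to one
-/

namespace Pool.Agent.Helper44.PP.Dabs

open Pool.Agent.Helper11.PP

/-- The terms with `m a ≤ X` are finitely many, and at most `e` times the sum. -/
lemma fin_le {α : Type} (m : α → ℕ) {X : ℝ} (hX : 0 < X)
    (hs : Summable fun a ↦ Real.exp (-(m a : ℝ) / X)) :
    {a | (m a : ℝ) ≤ X}.Finite ∧
      ({a | (m a : ℝ) ≤ X}.ncard : ℝ) ≤ Real.exp 1 * ∑' a, Real.exp (-(m a : ℝ) / X) := by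
  have key : ∀ a, (m a : ℝ) ≤ X → Real.exp (-1) ≤ Real.exp (-(m a : ℝ) / X) := by
    intro a ha
    apply Real.exp_le_exp.mpr
    rw [le_div_iff₀ hX]
    linarith
  have hfin : {a | (m a : ℝ) ≤ X}.Finite := by
    have h1 := hs.tendsto_cofinite_zero
    have h2 : ∀ᶠ a in Filter.cofinite, Real.exp (-(m a : ℝ) / X) < Real.exp (-1) :=
      h1.eventually (gt_mem_nhds (Real.exp_pos _))
    rw [Filter.eventually_cofinite] at h2
    refine h2.subset ?_
    intro a ha
    exact not_lt.mpr (key a ha)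
  refine ⟨hfin, ?_⟩
  have h3 : ∑ a ∈ hfin.toFinset, Real.exp (-(m a : ℝ) / X) ≤ ∑' a, Real.exp (-(m a : ℝ) / X) :=
    hs.sum_le_tsum _ (fun a _ ↦ (Real.exp_pos _).le)
  have h4 : (hfin.toFinset.card : ℝ) * Real.exp (-1) ≤
      ∑ a ∈ hfin.toFinset, Real.exp (-(m a : ℝ) / X) := by
    rw [← nsmul_eq_mul]
    refine Finset.card_nsmul_le_sum _ _ _ ?_
    intro a ha
    exact key a (by simpa using ha)
  rw [Set.ncard_eq_toFinset_card _ hfin]
  have h5 : Real.exp 1 * Real.exp (-1) = 1 := by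
    rw [← Real.exp_add]; simp
  have h6 : Real.exp 1 * ((hfin.toFinset.card : ℝ) * Real.exp (-1)) ≤
      Real.exp 1 * ∑' a, Real.exp (-(m a : ℝ) / X) :=
    mul_le_mul_of_nonneg_left (h4.trans h3) (Real.exp_pos _).le
  calc (hfin.toFinset.card : ℝ) = Real.exp 1 * ((hfin.toFinset.card : ℝ) * Real.exp (-1)) := by
        rw [mul_left_comm, h5, mul_one]
    _ ≤ _ := h6

/-- The sum is at most the number of the terms with `m a ≤ t Y` plus a small multiple of the sum at
`2 Y`. -/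
lemma sum_le {α : Type} (m : α → ℕ) {Y t : ℝ} (hY : 0 < Y)
    (hs : ∀ X : ℝ, 0 < X → Summable fun a ↦ Real.exp (-(m a : ℝ) / X)) (ht : 0 < t) :
    ∑' a, Real.exp (-(m a : ℝ) / Y) ≤ ({a | (m a : ℝ) ≤ t * Y}.ncard : ℝ) +
      Real.exp (-t / 2) * ∑' a, Real.exp (-(m a : ℝ) / (2 * Y)) := by
  classical
  obtain ⟨hfin, -⟩ := fin_le m (mul_pos ht hY) (hs _ (mul_pos ht hY))
  have hsum1 : Summable fun a ↦ if a ∈ hfin.toFinset then (1 : ℝ) else 0 :=
    summable_of_ne_finset_zero (s := hfin.toFinset) (fun b hb ↦ by simp [hb])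
  have h2Y : (0 : ℝ) < 2 * Y := by positivity
  have hsum2 : Summable fun a ↦ Real.exp (-t / 2) * Real.exp (-(m a : ℝ) / (2 * Y)) :=
    (hs _ h2Y).mul_left _
  have hle : ∀ a, Real.exp (-(m a : ℝ) / Y) ≤ (if a ∈ hfin.toFinset then (1 : ℝ) else 0) +
      Real.exp (-t / 2) * Real.exp (-(m a : ℝ) / (2 * Y)) := by
    intro a
    by_cases ha : a ∈ hfin.toFinset
    · rw [if_pos ha]
      have h1 : Real.exp (-(m a : ℝ) / Y) ≤ 1 := by
        rw [Real.exp_le_one_iff]
        apply div_nonpos_of_nonpos_of_nonneg _ hY.le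
        simp
      have h2 : 0 ≤ Real.exp (-t / 2) * Real.exp (-(m a : ℝ) / (2 * Y)) := by positivity
      linarith
    · rw [if_neg ha, zero_add, ← Real.exp_add]
      apply Real.exp_le_exp.mpr
      have h1 : t * Y < (m a : ℝ) := by
        by_contra hcon
        exact ha (by simpa using not_lt.mp hcon)
      have h3 : t ≤ (m a : ℝ) / Y := by
        rw [le_div_iff₀ hY]; exact h1.le
      have h4 : -(m a : ℝ) / (2 * Y) = -((m a : ℝ) / Y) / 2 := by
        field_simp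
      rw [h4, neg_div]
      linarith
  calc ∑' a, Real.exp (-(m a : ℝ) / Y)
      ≤ ∑' a, ((if a ∈ hfin.toFinset then (1 : ℝ) else 0) +
        Real.exp (-t / 2) * Real.exp (-(m a : ℝ) / (2 * Y))) :=
        (hs _ hY).tsum_le_tsum hle (hsum1.add hsum2)
    _ = _ := by
        rw [hsum1.tsum_add hsum2, tsum_mul_left,
          tsum_eq_sum (s := hfin.toFinset) (fun b hb ↦ by rw [if_neg hb]),
          Set.ncard_eq_toFinset_card _ hfin, Finset.sum_ite_mem, Finset.inter_self,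
          Finset.sum_const, nsmul_eq_mul, mul_one]

lemma slow_one {g : ℝ → ℝ} {K : ℝ} (h : Slow g K) : 1 ≤ K := by
  have h1 := h.one 0
  have h2 := h.mono 0 0 le_rfl
  by_contra hcon
  push Not at hcon
  nlinarith

lemma slow_pow {g : ℝ → ℝ} {K : ℝ} (h : Slow g K) (l : ℕ) :
    ∀ Y : ℝ, 1 ≤ Y → g (2 ^ l * Y) ≤ K ^ l * g Y := by
  have hK := slow_one h
  induction l with
  | zero => intro Y _; simp
  | succ l ih =>
    intro Y hY
    have h2 : (1 : ℝ) ≤ 2 ^ l * Y := by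
      have : (1 : ℝ) ≤ 2 ^ l := one_le_pow₀ (by norm_num)
      nlinarith
    have h1 := h.dbl (2 ^ l * Y) h2
    have h3 := ih Y hY
    calc g (2 ^ (l + 1) * Y) = g (2 * (2 ^ l * Y)) := by ring_nf
      _ ≤ K * g (2 ^ l * Y) := h1
      _ ≤ K * (K ^ l * g Y) := mul_le_mul_of_nonneg_left h3 (by linarith)
      _ = K ^ (l + 1) * g Y := by ring

/-- **D_ABS.** -/
theorem d_abs : D_ABS := by
  classical
  intro 𝒯 _ _ β n bad F g K c X₁ θ hF hc hθ hg hup hlow hbad ι f Bd Φ hΦ hcf hf hBd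
  have hK := slow_one hg
  have hgpos : ∀ X, 0 < g X := fun X ↦ lt_of_lt_of_le one_pos (hg.one X)
  -- the number of missing elements
  set h : ℕ := (Set.range Φ)ᶜ.ncard with hhdef
  -- the terms
  have hexp : ∀ X : ℝ, 0 < X → ∀ s : (Σ τ, β τ),
      Real.exp (-((F s.1 * n s.1 s.2 : ℕ) : ℝ) / X) ≤ Real.exp (-(n s.1 s.2 : ℝ) / X) := by
    intro X hX s
    apply Real.exp_le_exp.mpr
    apply div_le_div_of_nonneg_right _ hX.le
    have h1 : n s.1 s.2 ≤ F s.1 * n s.1 s.2 := Nat.le_mul_of_pos_left _ (hF s.1)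
    have h2 : ((n s.1 s.2 : ℕ) : ℝ) ≤ ((F s.1 * n s.1 s.2 : ℕ) : ℝ) := by exact_mod_cast h1
    linarith
  have hexpF : ∀ X : ℝ, 0 < X → ∀ (τ : 𝒯) (b : β τ),
      Real.exp (-((F τ * n τ b : ℕ) : ℝ) / X) = Real.exp (-(n τ b : ℝ) / (X / F τ)) := by
    intro X hX τ b
    congr 1
    have h1 : (F τ : ℝ) ≠ 0 := by
      have := hF τ
      positivity
    push_cast
    field_simp
  have hFpos : ∀ τ, (0 : ℝ) < F τ := fun τ ↦ by
    have := hF τ
    exact_mod_cast this
  have hFone : ∀ τ, (1 : ℝ) ≤ F τ := fun τ ↦ by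
    exact_mod_cast hF τ
  have hS0 : ∀ X : ℝ, 0 < X → Summable fun s : (Σ τ, β τ) ↦ Real.exp (-(n s.1 s.2 : ℝ) / X) := by
    intro X hX
    rw [summable_sigma_of_nonneg (fun s ↦ (Real.exp_pos _).le)]
    refine ⟨fun τ ↦ (hup τ X hX).1, ?_⟩
    exact (hasSum_fintype _).summable
  have hS1 : ∀ X : ℝ, 0 < X → Summable fun s : (Σ τ, β τ) ↦
      Real.exp (-((F s.1 * n s.1 s.2 : ℕ) : ℝ) / X) := by
    intro X hX
    exact (hS0 X hX).of_nonneg_of_le (fun s ↦ (Real.exp_pos _).le) (hexp X hX)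
  have hfi : ∀ (X : ℝ) (i : ι), Real.exp (-(f i : ℝ) / X) =
      Real.exp (-((F (Φ i).1 * n (Φ i).1 (Φ i).2 : ℕ) : ℝ) / X) := by
    intro X i
    rw [hf i]
  have hSf : ∀ X : ℝ, 0 < X → Summable fun i ↦ Real.exp (-(f i : ℝ) / X) := by
    intro X hX
    have := (hS1 X hX).comp_injective hΦ
    refine this.congr ?_
    intro i
    simp only [Function.comp]
    rw [hfi]
  have hfinf : ∀ X : ℝ, {i | (f i : ℝ) ≤ X}.Finite := by
    intro X
    have h1 := (fin_le f (X := max X 1) (by positivity) (hSf _ (by positivity))).1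
    refine h1.subset ?_
    intro i hi
    exact le_trans (show (f i : ℝ) ≤ X from hi) (le_max_left _ _)
  -- sum over the disjoint union
  have hSigF : ∀ X : ℝ, 0 < X → ∑' s : (Σ τ, β τ),
      Real.exp (-((F s.1 * n s.1 s.2 : ℕ) : ℝ) / X) =
        ∑ τ, ∑' b : β τ, Real.exp (-(n τ b : ℝ) / (X / F τ)) := by
    intro X hX
    rw [(hS1 X hX).tsum_sigma, tsum_fintype]
    refine Finset.sum_congr rfl fun τ _ ↦ ?_
    refine tsum_congr fun b ↦ ?_
    exact hexpF X hX τ b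
  have hSig0 : ∀ X : ℝ, 0 < X → ∑' s : (Σ τ, β τ), Real.exp (-(n s.1 s.2 : ℝ) / X) =
        ∑ τ, ∑' b : β τ, Real.exp (-(n τ b : ℝ) / X) := by
    intro X hX
    rw [(hS0 X hX).tsum_sigma, tsum_fintype]
  -- upper bound
  have hUP : ∀ X : ℝ, 1 ≤ X → ({i | (f i : ℝ) ≤ 2 * X}.ncard : ℝ) ≤
      Real.exp 1 * (Fintype.card 𝒯 * (K * (2 * X * (K * g X)))) := by
    intro X hX
    have h2X : (0 : ℝ) < 2 * X := by linarith
    have h1 := (fin_le f h2X (hSf _ h2X)).2
    refine h1.trans (mul_le_mul_of_nonneg_left ?_ (Real.exp_pos _).le)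
    calc ∑' i, Real.exp (-(f i : ℝ) / (2 * X))
        ≤ ∑' s : (Σ τ, β τ), Real.exp (-(n s.1 s.2 : ℝ) / (2 * X)) := by
          refine Summable.tsum_le_tsum_of_inj Φ hΦ (fun s _ ↦ (Real.exp_pos _).le) ?_
            (hSf _ h2X) (hS0 _ h2X)
          intro i
          rw [hfi]
          exact hexp _ h2X (Φ i)
      _ = ∑ τ, ∑' b : β τ, Real.exp (-(n τ b : ℝ) / (2 * X)) := hSig0 _ h2X
      _ ≤ ∑ τ : 𝒯, K * (2 * X * g (2 * X)) :=
          Finset.sum_le_sum fun τ _ ↦ (hup τ _ h2X).2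
      _ = Fintype.card 𝒯 * (K * (2 * X * g (2 * X))) := by
          rw [Finset.sum_const, nsmul_eq_mul, Finset.card_univ]
      _ ≤ _ := by
          have h3 := hg.dbl X hX
          have h4 : (0 : ℝ) ≤ Fintype.card 𝒯 := by positivity
          have h5 : (0 : ℝ) ≤ K := by linarith
          gcongr
  -- choice of t
  obtain ⟨t, ht1, ht2⟩ : ∃ t : ℝ, 1 ≤ t ∧ 2 * K ^ 2 * Real.exp (-t / 2) ≤ c / 2 := by
    have h1 : Filter.Tendsto (fun t : ℝ ↦ 2 * K ^ 2 * Real.exp (-t / 2)) Filter.atTop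
        (nhds (2 * K ^ 2 * 0)) := by
      refine Filter.Tendsto.const_mul _ ?_
      refine Real.tendsto_exp_atBot.comp ?_
      have h2 : (fun t : ℝ ↦ -t / 2) = fun t ↦ -(t / 2) := by
        funext t; ring
      rw [h2]
      exact Filter.tendsto_neg_atTop_atBot.comp
        (Filter.tendsto_id.atTop_div_const (by norm_num))
    rw [mul_zero] at h1
    have h3 := h1.eventually (gt_mem_nhds (show (0 : ℝ) < c / 2 by positivity))
    obtain ⟨t, ht⟩ := (h3.and (Filter.eventually_ge_atTop 1)).exists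
    exact ⟨t, ht.2, ht.1.le⟩
  have ht0 : 0 < t := by linarith
  obtain ⟨τ₀⟩ := (inferInstance : Nonempty 𝒯)
  have hN : ∀ Y : ℝ, 1 ≤ Y → X₁ ≤ Y →
      c / 2 * (Y * g Y) ≤ ({b : β τ₀ | (n τ₀ b : ℝ) ≤ t * Y}.ncard : ℝ) := by
    intro Y hY1 hYX
    have hY : 0 < Y := by linarith
    have h1 := sum_le (n τ₀) hY (fun X hX ↦ (hup τ₀ X hX).1) ht0
    have h2 := hlow τ₀ Y hY hYX
    have h3 := (hup τ₀ (2 * Y) (by positivity)).2
    have h4 := hg.dbl Y hY1
    have h5 : Real.exp (-t / 2) * ∑' a : β τ₀, Real.exp (-(n τ₀ a : ℝ) / (2 * Y)) ≤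
        c / 2 * (Y * g Y) := by
      calc Real.exp (-t / 2) * ∑' a : β τ₀, Real.exp (-(n τ₀ a : ℝ) / (2 * Y))
          ≤ Real.exp (-t / 2) * (K * (2 * Y * g (2 * Y))) :=
            mul_le_mul_of_nonneg_left h3 (Real.exp_pos _).le
        _ ≤ Real.exp (-t / 2) * (K * (2 * Y * (K * g Y))) := by
            have h5 : (0 : ℝ) ≤ K := by linarith
            gcongr
        _ = (2 * K ^ 2 * Real.exp (-t / 2)) * (Y * g Y) := by ring
        _ ≤ c / 2 * (Y * g Y) := by
            have := hgpos Y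
            gcongr
    linarith
  obtain ⟨l, hl⟩ : ∃ l : ℕ, t * F τ₀ ≤ 2 ^ l := by
    obtain ⟨l, hl⟩ := pow_unbounded_of_one_lt (t * F τ₀) (show (1 : ℝ) < 2 by norm_num)
    exact ⟨l, hl.le⟩
  have h2l : (0 : ℝ) < 2 ^ l := by positivity
  set c' : ℝ := c / (4 * (2 ^ l * K ^ l)) with hc'
  have hKl : (0 : ℝ) < K ^ l := by positivity
  have hc'pos : 0 < c' := by positivity
  -- lower bound
  set X₂ : ℝ := max (max (2 ^ l * max X₁ 1) ((h : ℝ) / c')) 1 with hX₂
  have hLOW : ∀ X : ℝ, X₂ ≤ X → c' * (X * g X) ≤ ({i | (f i : ℝ) ≤ X}.ncard : ℝ) := by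
    intro X hX
    have hX1 : 1 ≤ X := le_trans (le_max_right _ _) hX
    have hXl : 2 ^ l * max X₁ 1 ≤ X := le_trans (le_trans (le_max_left _ _) (le_max_left _ _)) hX
    have hXh : (h : ℝ) / c' ≤ X := le_trans (le_trans (le_max_right _ _) (le_max_left _ _)) hX
    set Y : ℝ := X / 2 ^ l with hY
    have hXY : X = 2 ^ l * Y := by rw [hY]; field_simp
    have hYm : max X₁ 1 ≤ Y := by
      rw [hY, le_div_iff₀ h2l]; linarith
    have hY1 : 1 ≤ Y := le_trans (le_max_right _ _) hYm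
    have hYX : X₁ ≤ Y := le_trans (le_max_left _ _) hYm
    have hYpos : 0 < Y := by linarith
    have h1 := hN Y hY1 hYX
    have h2 := slow_pow hg l Y hY1
    rw [← hXY] at h2
    -- comparison of the cardinals
    have h3 : {b : β τ₀ | (n τ₀ b : ℝ) ≤ t * Y}.ncard ≤ {i | (f i : ℝ) ≤ X}.ncard + h := by
      have hinj : Function.Injective (Sigma.mk τ₀ : β τ₀ → Σ τ, β τ) := sigma_mk_injective
      rw [← Set.ncard_image_of_injective _ hinj]
      have hsub : (Sigma.mk τ₀ : β τ₀ → Σ τ, β τ) '' {b : β τ₀ | (n τ₀ b : ℝ) ≤ t * Y} ⊆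
          Φ '' {i | (f i : ℝ) ≤ X} ∪ (Set.range Φ)ᶜ := by
        rintro _ ⟨b, hb, rfl⟩
        by_cases hr : (⟨τ₀, b⟩ : Σ τ, β τ) ∈ Set.range Φ
        · left
          obtain ⟨i, hi⟩ := hr
          refine ⟨i, ?_, hi⟩
          show (f i : ℝ) ≤ X
          rw [hf i, hi]
          push_cast
          calc (F τ₀ : ℝ) * (n τ₀ b : ℝ) ≤ F τ₀ * (t * Y) :=
                mul_le_mul_of_nonneg_left hb (hFpos τ₀).le
            _ = (t * F τ₀) * Y := by ring
            _ ≤ 2 ^ l * Y := mul_le_mul_of_nonneg_right hl hYpos.le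
            _ = X := hXY.symm
        · right
          exact hr
      calc _ ≤ (Φ '' {i | (f i : ℝ) ≤ X} ∪ (Set.range Φ)ᶜ).ncard :=
            Set.ncard_le_ncard hsub (((hfinf X).image _).union hcf)
        _ ≤ (Φ '' {i | (f i : ℝ) ≤ X}).ncard + (Set.range Φ)ᶜ.ncard := Set.ncard_union_le _ _
        _ = _ := by rw [Set.ncard_image_of_injective _ hΦ]
    have h4 : ({b : β τ₀ | (n τ₀ b : ℝ) ≤ t * Y}.ncard : ℝ) ≤
        ({i | (f i : ℝ) ≤ X}.ncard : ℝ) + h := by exact_mod_cast h3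
    have h5 : 2 * c' * (X * g X) ≤ c / 2 * (Y * g Y) := by
      have h6 : 2 * c' * (X * g X) ≤ 2 * c' * (X * (K ^ l * g Y)) := by
        have : 0 < X := by linarith
        gcongr
      refine h6.trans (le_of_eq ?_)
      rw [hXY, hc']
      field_simp
      ring
    have h7 : (h : ℝ) ≤ c' * (X * g X) := by
      have h8 : (h : ℝ) ≤ c' * X := by
        rw [div_le_iff₀ hc'pos] at hXh
        linarith
      have h9 : X ≤ X * g X := by
        have := hg.one X
        nlinarith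
      calc (h : ℝ) ≤ c' * X := h8
        _ ≤ c' * (X * g X) := mul_le_mul_of_nonneg_left h9 hc'pos.le
    linarith
  have hX2pos : 1 ≤ X₂ := le_max_right _ _
  refine ⟨hSf, hfinf, ?_, ?_, ?_⟩
  · -- doubling
    refine ⟨Real.exp 1 * (Fintype.card 𝒯 * (K * (2 * K))) / c', X₂, by linarith, ?_⟩
    intro X hX
    have hX1 : 1 ≤ X := hX2pos.trans hX
    have h1 := hUP X hX1
    have h2 := hLOW X hX
    refine h1.trans ?_
    calc Real.exp 1 * (Fintype.card 𝒯 * (K * (2 * X * (K * g X))))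
        = Real.exp 1 * (Fintype.card 𝒯 * (K * (2 * K))) / c' * (c' * (X * g X)) := by
          field_simp
      _ ≤ _ := by
          refine mul_le_mul_of_nonneg_left h2 ?_
          positivity
  · -- infinite
    by_contra hcon
    have hfinι : Finite ι := not_infinite_iff_finite.mp hcon
    obtain ⟨X, hX⟩ : ∃ X : ℝ, X₂ ≤ X ∧ (Nat.card ι : ℝ) < c' * X := by
      refine ⟨max X₂ ((Nat.card ι + 1 : ℝ) / c'), le_max_left _ _, ?_⟩
      have h1 : (Nat.card ι + 1 : ℝ) / c' ≤ max X₂ ((Nat.card ι + 1 : ℝ) / c') := le_max_right _ _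
      rw [div_le_iff₀ hc'pos] at h1
      linarith
    have h1 := hLOW X hX.1
    have h2 : ({i | (f i : ℝ) ≤ X}.ncard : ℝ) ≤ Nat.card ι := by
      have h3 : {i | (f i : ℝ) ≤ X}.ncard ≤ Nat.card ι := by
        rw [← Set.ncard_univ]
        exact Set.ncard_le_ncard (Set.subset_univ _) Set.finite_univ
      exact_mod_cast h3
    have h9 : c' * X ≤ c' * (X * g X) := by
      have h10 := hg.one X
      have h11 : 1 ≤ X := hX2pos.trans hX.1
      refine mul_le_mul_of_nonneg_left ?_ hc'pos.le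
      nlinarith
    linarith [hX.2]
  · -- the bad elements
    intro η hη
    have hcard : (0 : ℝ) < Fintype.card 𝒯 := by
      have : 0 < Fintype.card 𝒯 := Fintype.card_pos
      exact_mod_cast this
    set e1 : ℝ := Real.exp (-1) with he1
    have he1pos : 0 < e1 := Real.exp_pos _
    set η' : ℝ := η * c' * e1 / (2 * (Fintype.card 𝒯 * K)) with hη'
    have hη'pos : 0 < η' := by positivity
    obtain ⟨X₀, hX₀⟩ := hbad η' hη'pos
    set Fm : ℝ := ∑ τ, (F τ : ℝ) with hFm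
    have hFm1 : ∀ τ, (F τ : ℝ) ≤ Fm := fun τ ↦
      Finset.single_le_sum (f := fun τ ↦ (F τ : ℝ)) (fun i _ ↦ (hFpos i).le) (Finset.mem_univ τ)
    have hFm0 : 0 ≤ Fm := (hFpos τ₀).le.trans (hFm1 τ₀)
    filter_upwards [Filter.eventually_ge_atTop (max X₂ (max (|X₀| * Fm)
      (θ * h / (η / 2 * e1 * c'))))] with X hX
    have hXX2 : X₂ ≤ X := le_trans (le_max_left _ _) hX
    have hXF : |X₀| * Fm ≤ X := le_trans (le_trans (le_max_left _ _) (le_max_right _ _)) hX
    have hXθ : θ * h / (η / 2 * e1 * c') ≤ X :=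
      le_trans (le_trans (le_max_right _ _) (le_max_right _ _)) hX
    have hX1 : 1 ≤ X := hX2pos.trans hXX2
    have hX0 : 0 < X := by linarith
    -- S ≥ e^(-1) c' X g X
    have hSlow : e1 * (c' * (X * g X)) ≤ ∑' i, Real.exp (-(f i : ℝ) / X) := by
      have h1 := hLOW X hXX2
      have h2 := (fin_le f hX0 (hSf _ hX0)).2
      have h3 : e1 * Real.exp 1 = 1 := by
        rw [he1, ← Real.exp_add]; simp
      calc e1 * (c' * (X * g X)) ≤ e1 * (Real.exp 1 * ∑' i, Real.exp (-(f i : ℝ) / X)) :=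
            mul_le_mul_of_nonneg_left (h1.trans h2) he1pos.le
        _ = _ := by rw [← mul_assoc, h3, one_mul]
    -- T ≤ S + h
    have hT : ∑ τ, ∑' b : β τ, Real.exp (-(n τ b : ℝ) / (X / F τ)) ≤
        ∑' i, Real.exp (-(f i : ℝ) / X) + h := by
      rw [← hSigF X hX0]
      have hsum := hS1 X hX0
      have h1 := hsum.sum_add_tsum_compl (s := hcf.toFinset)
      rw [← h1]
      have h2 : ∑ x ∈ hcf.toFinset, Real.exp (-((F x.1 * n x.1 x.2 : ℕ) : ℝ) / X) ≤ h := by
        calc ∑ x ∈ hcf.toFinset, Real.exp (-((F x.1 * n x.1 x.2 : ℕ) : ℝ) / X)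
            ≤ ∑ x ∈ hcf.toFinset, (1 : ℝ) := by
              refine Finset.sum_le_sum fun x _ ↦ ?_
              rw [Real.exp_le_one_iff]
              exact div_nonpos_of_nonpos_of_nonneg (neg_nonpos.mpr (Nat.cast_nonneg _)) hX0.le
          _ = h := by
              rw [Finset.sum_const, nsmul_eq_mul, mul_one, hhdef, Set.ncard_eq_toFinset_card _ hcf]
      have h3 : ∑' x : ((hcf.toFinset : Set (Σ τ, β τ))ᶜ : Set (Σ τ, β τ)),
          Real.exp (-((F x.1.1 * n x.1.1 x.1.2 : ℕ) : ℝ) / X) =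
          ∑' i, Real.exp (-(f i : ℝ) / X) := by
        have hset : ((hcf.toFinset : Set (Σ τ, β τ))ᶜ : Set (Σ τ, β τ)) = Set.range Φ := by
          rw [Set.Finite.coe_toFinset, compl_compl]
        rw [hset]
        have h4 := (Equiv.ofInjective Φ hΦ).tsum_eq
          (fun x : Set.range Φ ↦ Real.exp (-((F x.1.1 * n x.1.1 x.1.2 : ℕ) : ℝ) / X))
        rw [← h4]
        refine tsum_congr fun i ↦ ?_
        rw [hfi]
        rfl
      rw [h3]
      linarith
    -- bad sums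
    have hB : ∑' i : Bd, Real.exp (-(f i.1 : ℝ) / X) ≤
        ∑ τ, ∑' b : bad τ, Real.exp (-(n τ b.1 : ℝ) / (X / F τ)) := by
      set G : (Σ τ, bad τ) → ℝ := fun s ↦
        Real.exp (-(n s.1 s.2.1 : ℝ) / (X / F s.1)) with hG
      have hGS : Summable G := by
        rw [summable_sigma_of_nonneg (fun s ↦ (Real.exp_pos _).le)]
        refine ⟨fun τ ↦ ?_, (hasSum_fintype _).summable⟩
        exact ((hup τ (X / F τ) (div_pos hX0 (hFpos τ))).1).comp_injective
          Subtype.val_injective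
      have h1 : ∑' s, G s = ∑ τ, ∑' b : bad τ, Real.exp (-(n τ b.1 : ℝ) / (X / F τ)) := by
        rw [hGS.tsum_sigma, tsum_fintype]
      rw [← h1]
      refine Summable.tsum_le_tsum_of_inj
        (fun i : Bd ↦ (⟨(Φ i.1).1, ⟨(Φ i.1).2, hBd i.1 i.2⟩⟩ : Σ τ, bad τ)) ?_
        (fun s _ ↦ (Real.exp_pos _).le) ?_ ((hSf X hX0).comp_injective Subtype.val_injective) hGS
      · intro i j hij
        apply Subtype.ext
        apply hΦ
        have h2 := congrArg (fun s : (Σ τ, bad τ) ↦ (⟨s.1, s.2.1⟩ : Σ τ, β τ)) hij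
        simpa using h2
      · intro i
        rw [hG]
        show Real.exp (-(f i.1 : ℝ) / X) ≤
          Real.exp (-(n (Φ i.1).1 (Φ i.1).2 : ℝ) / (X / F (Φ i.1).1))
        rw [hfi, hexpF X hX0]
    have hB2 : ∀ τ, ∑' b : bad τ, Real.exp (-(n τ b.1 : ℝ) / (X / F τ)) ≤
        θ * ∑' b : β τ, Real.exp (-(n τ b : ℝ) / (X / F τ)) + η' * (X * (K * g X)) := by
      intro τ
      have hXτ : X₀ ≤ X / F τ := by
        rw [le_div_iff₀ (hFpos τ)]
        calc X₀ * F τ ≤ |X₀| * F τ := mul_le_mul_of_nonneg_right (le_abs_self _) (hFpos τ).le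
          _ ≤ |X₀| * Fm := mul_le_mul_of_nonneg_left (hFm1 τ) (abs_nonneg _)
          _ ≤ X := hXF
      refine (hX₀ τ _ hXτ).trans ?_
      have h1 : X / F τ ≤ X := div_le_self hX0.le (hFone τ)
      have h2 := hg.mono _ _ h1
      have h3 : X / F τ * g (X / F τ) ≤ X * (K * g X) := by
        have h4 : 0 < X / F τ := div_pos hX0 (hFpos τ)
        have h5 := hgpos (X / F τ)
        exact mul_le_mul h1 h2 h5.le hX0.le
      have h6 := mul_le_mul_of_nonneg_left h3 hη'pos.le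
      linarith
    set S : ℝ := ∑' i, Real.exp (-(f i : ℝ) / X) with hSdef
    calc ∑' i : Bd, Real.exp (-(f i.1 : ℝ) / X)
        ≤ ∑ τ, ∑' b : bad τ, Real.exp (-(n τ b.1 : ℝ) / (X / F τ)) := hB
      _ ≤ ∑ τ, (θ * ∑' b : β τ, Real.exp (-(n τ b : ℝ) / (X / F τ)) + η' * (X * (K * g X))) :=
          Finset.sum_le_sum fun τ _ ↦ hB2 τ
      _ = θ * (∑ τ, ∑' b : β τ, Real.exp (-(n τ b : ℝ) / (X / F τ))) +
          Fintype.card 𝒯 * (η' * (X * (K * g X))) := by
          rw [Finset.sum_add_distrib, ← Finset.mul_sum, Finset.sum_const, nsmul_eq_mul,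
            Finset.card_univ]
      _ ≤ θ * (S + h) + Fintype.card 𝒯 * (η' * (X * (K * g X))) := by
          have := mul_le_mul_of_nonneg_left hT hθ
          linarith
      _ ≤ (θ + η) * S := by
          have h1 : Fintype.card 𝒯 * (η' * (X * (K * g X))) = η / 2 * (e1 * (c' * (X * g X))) := by
            rw [hη']
            field_simp
          have h2 : θ * h ≤ η / 2 * (e1 * (c' * (X * g X))) := by
            have h3 : 0 < η / 2 * e1 * c' := by positivity
            rw [div_le_iff₀ h3] at hXθ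
            have h4 : X ≤ X * g X := by
              have := hg.one X
              nlinarith
            calc θ * h ≤ X * (η / 2 * e1 * c') := hXθ
              _ ≤ (X * g X) * (η / 2 * e1 * c') := mul_le_mul_of_nonneg_right h4 h3.le
              _ = _ := by ring
          have h5 : η / 2 * (e1 * (c' * (X * g X))) ≤ η / 2 * S :=
            mul_le_mul_of_nonneg_left hSlow (by positivity)
          rw [h1]
          nlinarith

end Pool.Agent.Helper44.PP.Dabs

namespace Pool.Agent.Helper44.PP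

/-- **D_ABS.** -/
theorem d_abs : Pool.Agent.Helper11.PP.D_ABS := Dabs.d_abs

end Pool.Agent.Helper44.PP
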